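import Pool.Agent.H7.HD.Tools2

/-! Module HK of the board `hd_modules`: the Mitchell order of two atoms. -/

open Ordinal Cardinal Order Set
open scoped ZFSet

universe u

namespace Pool.Agent.H48.HD.HK

open _root_.HD

/-- renaming which skips the variable `1` -/
def sk : ℕ → ℕ
  | 0 => 0
  | n + 1 => n + 2

theorem do_cf (hLA : T_LA.{u}) : DO.{u} fun w => Cf (w 0) (w 1) := by
  refine hLA.dz.do.congr fun w => ?_
  simp [ov, ZFSet.isOrdinal_toZFSet, rank_toZFSet]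

theorem do_posc (hDA : T_DA.{u}) (μ : Ordinal.{u}) (i : ℕ)
    {X : Ordinal.{u} → (ℕ → Ordinal.{u}) → Prop}
    (hX : DO fun w => X (w 0) (fun n => w (n + 1))) : DO fun w => Pos μ (w i) {a | X a w} := by
  refine DO.sub (R := fun m w => Pos m (w i) {a | X a w}) μ ?_
  exact hDA 0 (i + 1) (fun a w => X a (fun n => w (n + 1))) (hX.ren sk)

/-- the good points -/
def G0 (en : Ordinal.{u} → ZFSet.{u}) (μ ν c : Ordinal.{u}) : Set Ordinal.{u} :=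
  {α | Cf ν α ∧ Pos μ α (E en c) ∧
    (∀ x, ¬ (Pos μ α (E en c ∩ E en x) ∧ Pos μ α (E en c \ E en x))) ∧
    ∀ e, (∀ a < α, ¬ Pos μ α (E en c \ E2 en e a)) →
      ¬ Pos μ α {b | b ∈ E en c ∧ ∃ a < b, b ∉ E2 en e a}}

theorem do_Ec {en : Ordinal.{u} → ZFSet.{u}} (hE : DO.{u} fun w => w 0 ∈ E en (w 1)) (c : Ordinal.{u})
    (i : ℕ) : DO.{u} fun w => w i ∈ E en c := by
  have h : DO.{u} fun w => w 0 ∈ E en c :=
    DO.sub (R := fun m w => w 0 ∈ E en m) c (DO.s2 (X := fun a b => a ∈ E en b) hE 1 0)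
  exact DO.s1 (X := fun a => a ∈ E en c) h i

theorem ds_G0 (hLA : T_LA.{u}) (hDA : T_DA.{u}) {en : Ordinal.{u} → ZFSet.{u}}
    (hE : DO.{u} fun w => w 0 ∈ E en (w 1)) (hE2 : DO.{u} fun w => w 0 ∈ E2 en (w 2) (w 1))
    (μ ν c : Ordinal.{u}) : DS (G0 en μ ν c) := by
  have hc := do_Ec hE c
  have h1 : DO.{u} fun w => Cf ν (w 0) :=
    DO.sub (R := fun m w => Cf m (w 0)) ν (DO.s2 (X := fun a b => Cf a b) (do_cf hLA) 0 1)
  have h2 : DO.{u} fun w => Pos μ (w 0) (E en c) := by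
    refine (do_posc hDA μ 0 (X := fun a _ => a ∈ E en c) (hc 0)).congr fun w => ?_
    exact Pos.congr fun b _ => Iff.rfl
  have h3 : DO.{u} fun w => ∀ x, ¬ (Pos μ (w 0) (E en c ∩ E en x) ∧ Pos μ (w 0) (E en c \ E en x)) := by
    refine DO.all (R := fun x w => ¬ (Pos μ (w 0) (E en c ∩ E en x) ∧ Pos μ (w 0) (E en c \ E en x))) ?_
    refine DO.not (DO.and ?_ ?_)
    · refine (do_posc hDA μ 1 (X := fun a w => a ∈ E en c ∧ a ∈ E en (w 0)) ((hc 0).and ?_)).congr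
        fun w => ?_
      · exact hE
      · exact Pos.congr fun b _ => Iff.rfl
    · refine (do_posc hDA μ 1 (X := fun a w => a ∈ E en c ∧ ¬ a ∈ E en (w 0)) ((hc 0).and ?_)).congr
        fun w => ?_
      · exact hE.not
      · exact Pos.congr fun b _ => Iff.rfl
  have h4 : DO.{u} fun w => ∀ e, (∀ a < w 0, ¬ Pos μ (w 0) (E en c \ E2 en e a)) →
      ¬ Pos μ (w 0) {b | b ∈ E en c ∧ ∃ a < b, b ∉ E2 en e a} := by
    refine DO.all (R := fun e w => (∀ a < w 0, ¬ Pos μ (w 0) (E en c \ E2 en e a)) →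
      ¬ Pos μ (w 0) {b | b ∈ E en c ∧ ∃ a < b, b ∉ E2 en e a}) ?_
    refine DO.imp ?_ (DO.not ?_)
    · refine DO.allLt (R := fun a w => ¬ Pos μ (w 1) (E en c \ E2 en (w 0) a)) 1 ?_
      refine DO.not ?_
      refine (do_posc hDA μ 2 (X := fun b w => b ∈ E en c ∧ ¬ b ∈ E2 en (w 1) (w 0))
        ((hc 0).and ?_)).congr fun w => ?_
      · exact hE2.not
      · exact Pos.congr fun b _ => Iff.rfl
    · refine do_posc hDA μ 1 (X := fun b w => b ∈ E en c ∧ ∃ a < b, b ∉ E2 en (w 0) a)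
        ((hc 0).and ?_)
      refine DO.exLt (R := fun a w => ¬ w 0 ∈ E2 en (w 1) a) 0 ?_
      refine DO.not ?_
      exact DO.s3 (X := fun b a e => b ∈ E2 en e a) hE2 1 0 2
  exact (h1.and (h2.and (h3.and h4))).congr fun w => Iff.rfl

theorem cme_of_G0 {en : Ordinal.{u} → ZFSet.{u}} {M N : Cardinal.{u}} {c : Ordinal.{u}}
    (hM : M.IsRegular) (hMN : M < N) {α : Ordinal.{u}} (h : α ∈ G0 en M.ord N.ord c) :
    CMe en M.ord α c := by
  obtain ⟨h1, h2, h3, h4⟩ := h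
  refine ⟨?_, h2, h3, h4⟩
  have : α.cof = N := Cardinal.ord_injective h1
  rw [this]
  exact lt_of_le_of_lt hM.aleph0_le hMN

/-- the function -/
noncomputable def F (en : Ordinal.{u} → ZFSet.{u}) (μ ν κ c : Ordinal.{u}) : ZFSet.{u} :=
  ZFSet.sep (fun p => ∃ (α : Ordinal.{u}) (u : ZFSet.{u}), p = ZFSet.pair α.toZFSet u ∧
      ((α ∈ G0 en μ ν c ∧ u = uz en μ α c) ∨ (α ∉ G0 en μ ν c ∧ u = ∅)))
    (ZFSet.prod κ.toZFSet (ZFSet.powerset (ZFSet.powerset κ.toZFSet)))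

theorem uz_mem {en : Ordinal.{u} → ZFSet.{u}} {μ α c κ : Ordinal.{u}} (h : α ≤ κ) :
    uz en μ α c ∈ ZFSet.powerset (ZFSet.powerset κ.toZFSet) := by
  rw [ZFSet.mem_powerset]
  intro x hx
  unfold uz at hx
  rw [ZFSet.mem_sep, ZFSet.mem_powerset] at hx
  rw [ZFSet.mem_powerset]
  intro z hz
  obtain ⟨b, hb, rfl⟩ := mem_toZFSet_iff.1 (hx.1 hz)
  exact toZFSet_mem_toZFSet_iff.2 (lt_of_lt_of_le hb h)

theorem empty_mem (x : ZFSet.{u}) : (∅ : ZFSet.{u}) ∈ ZFSet.powerset x := by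
  rw [ZFSet.mem_powerset]
  intro z hz
  exact absurd hz (ZFSet.notMem_empty z)

theorem mem_F {en : Ordinal.{u} → ZFSet.{u}} {μ ν κ c : Ordinal.{u}} {p : ZFSet.{u}} :
    p ∈ F en μ ν κ c ↔ ∃ α < κ, ∃ u, p = ZFSet.pair α.toZFSet u ∧
      ((α ∈ G0 en μ ν c ∧ u = uz en μ α c) ∨ (α ∉ G0 en μ ν c ∧ u = ∅)) := by
  unfold F
  rw [ZFSet.mem_sep]
  constructor
  · rintro ⟨h1, α, u, rfl, h⟩
    rw [ZFSet.pair_mem_prod, toZFSet_mem_toZFSet_iff] at h1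
    exact ⟨α, h1.1, u, rfl, h⟩
  · rintro ⟨α, hα, u, rfl, h⟩
    refine ⟨?_, α, u, rfl, h⟩
    rw [ZFSet.pair_mem_prod, toZFSet_mem_toZFSet_iff]
    refine ⟨hα, ?_⟩
    rcases h with ⟨-, rfl⟩ | ⟨-, rfl⟩
    · exact uz_mem hα.le
    · exact empty_mem _

theorem pair_mem_F {en : Ordinal.{u} → ZFSet.{u}} {μ ν κ c α : Ordinal.{u}} {u : ZFSet.{u}} :
    ZFSet.pair α.toZFSet u ∈ F en μ ν κ c ↔ α < κ ∧
      ((α ∈ G0 en μ ν c ∧ u = uz en μ α c) ∨ (α ∉ G0 en μ ν c ∧ u = ∅)) := by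
  rw [mem_F]
  constructor
  · rintro ⟨β, hβ, u', he, h⟩
    obtain ⟨h1, h2⟩ := ZFSet.pair_injective he
    have h1' := toZFSet_injective h1
    subst h1' h2
    exact ⟨hβ, h⟩
  · rintro ⟨h1, h2⟩
    exact ⟨α, h1, u, rfl, h2⟩

theorem mem_uz_iff {en : Ordinal.{u} → ZFSet.{u}} (hen : EN en) {μ α c : Ordinal.{u}} {z : ZFSet.{u}} :
    z ∈ uz en μ α c ↔ ∃ x, z = en x ∧ z ⊆ α.toZFSet ∧ ¬ Pos μ α (E en c \ E en x) := by
  unfold uz
  rw [ZFSet.mem_sep, ZFSet.mem_powerset]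
  constructor
  · rintro ⟨h1, h2, h3⟩
    obtain ⟨x, hx⟩ := (hen.od z).1 h2
    refine ⟨x, hx.symm, h1, ?_⟩
    subst hx
    exact h3
  · rintro ⟨x, rfl, h1, h2⟩
    exact ⟨h1, (hen.od _).2 ⟨x, rfl⟩, h2⟩

theorem od_F (hLA : T_LA.{u}) (hDA : T_DA.{u}) {en : Ordinal.{u} → ZFSet.{u}} (hen : EN en)
    (hE : DO.{u} fun w => w 0 ∈ E en (w 1)) (hE2 : DO.{u} fun w => w 0 ∈ E2 en (w 2) (w 1))
    (μ ν κ c : Ordinal.{u}) : OD (F en μ ν κ c) := by
  obtain ⟨Q, hQ, hQ'⟩ := ds_G0 hLA hDA hE hE2 μ ν c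
  -- the relation `(α, x) ↦ ¬ Pos μ α (E en c \ E en x)`
  have hP : DO.{u} fun w => ¬ Pos μ (w 1) (E en c \ E en (w 0)) := by
    refine DO.not ?_
    refine (do_posc hDA μ 1 (X := fun a w => a ∈ E en c ∧ ¬ a ∈ E en (w 0))
      ((do_Ec hE c 0).and hE.not)).congr fun w => ?_
    exact Pos.congr fun b _ => Iff.rfl
  obtain ⟨R, hR, hR'⟩ := hP
  have hQa : ∀ α : Ordinal.{u}, (α ∈ G0 en μ ν c ↔ Q (fun _ => α.toZFSet)) := fun α =>
    hQ' (fun _ => α)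
  have hRa : ∀ α x : Ordinal.{u}, (¬ Pos μ α (E en c \ E en x) ↔ R (cons x.toZFSet fun _ => α.toZFSet)) := by
    intro α x
    have h := hR' (cns x fun _ => α)
    rw [ov_cns] at h
    exact h
  refine OD.of_mem (P := fun v => ∃ a ∈ κ.toZFSet, ∃ u, v 0 = ZFSet.pair a u ∧
    ((Q (fun _ => a) ∧ ∀ z, (z ∈ u ↔ ∃ x, (x.IsOrdinal ∧ z = en x.rank) ∧ (∀ y ∈ z, y ∈ a) ∧
      R (cons x fun _ => a))) ∨ (¬ Q (fun _ => a) ∧ u = ∅))) ?_ fun v => ?_
  · refine DZ.od (R := fun k v => ∃ a ∈ k, ∃ u, v 0 = ZFSet.pair a u ∧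
      ((Q (fun _ => a) ∧ ∀ z, (z ∈ u ↔ ∃ x, (x.IsOrdinal ∧ z = en x.rank) ∧ (∀ y ∈ z, y ∈ a) ∧
        R (cons x fun _ => a))) ∨ (¬ Q (fun _ => a) ∧ u = ∅))) (OD.ordinal κ) ?_
    refine DZ.exMem (R := fun a v => ∃ u, v 1 = ZFSet.pair a u ∧
      ((Q (fun _ => a) ∧ ∀ z, (z ∈ u ↔ ∃ x, (x.IsOrdinal ∧ z = en x.rank) ∧ (∀ y ∈ z, y ∈ a) ∧
        R (cons x fun _ => a))) ∨ (¬ Q (fun _ => a) ∧ u = ∅))) 0 ?_
    refine DZ.ex (R := fun u v => v 2 = ZFSet.pair (v 0) u ∧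
      ((Q (fun _ => v 0) ∧ ∀ z, (z ∈ u ↔ ∃ x, (x.IsOrdinal ∧ z = en x.rank) ∧
        (∀ y ∈ z, y ∈ v 0) ∧ R (cons x fun _ => v 0))) ∨ (¬ Q (fun _ => v 0) ∧ u = ∅))) ?_
    refine DZ.and (loc_pair 3 1 0).dz (DZ.or (DZ.and (hQ.ren fun _ => 1) ?_)
      (DZ.and (hQ.ren fun _ => 1).not (loc_empty 0).dz))
    refine DZ.all (R := fun z v => (z ∈ v 0 ↔ ∃ x, (x.IsOrdinal ∧ z = en x.rank) ∧
        (∀ y ∈ z, y ∈ v 1) ∧ R (cons x fun _ => v 1))) ?_
    refine (DZ.mem 0 1).iff ?_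
    refine DZ.ex (R := fun x v => (x.IsOrdinal ∧ v 0 = en x.rank) ∧
        (∀ y ∈ v 0, y ∈ v 2) ∧ R (cons x fun _ => v 2)) ?_
    refine DZ.and hen.dz (DZ.and ?_ ?_)
    · exact DZ.allMem (R := fun y v => y ∈ v 3) 1 (DZ.mem 0 4)
    · refine (hR.ren (fun n => if n = 0 then 0 else 3)).congr fun v => ?_
      have : (cons (v 0) fun _ => v (2 + 1)) = fun n => v (if n = 0 then 0 else 3) := by
        funext n
        rcases n with _ | n
        · simp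
        · simp
      rw [← this]
  · rw [mem_F]
    constructor
    · rintro ⟨a, ha, u, hv, h⟩
      obtain ⟨α, hα, rfl⟩ := mem_toZFSet_iff.1 ha
      refine ⟨α, hα, u, hv, ?_⟩
      rw [← hQa] at h
      refine h.imp (fun h => ⟨h.1, ?_⟩) (fun h => h)
      ext z
      rw [h.2 z, mem_uz_iff hen]
      constructor
      · rintro ⟨x, ⟨hx, hz⟩, h1, h2⟩
        obtain ⟨b, rfl⟩ := ord_of hx
        rw [rank_toZFSet] at hz
        exact ⟨b, hz, h1, (hRa α b).2 h2⟩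
      · rintro ⟨b, hz, h1, h2⟩
        exact ⟨b.toZFSet, ⟨ZFSet.isOrdinal_toZFSet b, by rw [rank_toZFSet]; exact hz⟩, h1,
          (hRa α b).1 h2⟩
    · rintro ⟨α, hα, u, hv, h⟩
      refine ⟨α.toZFSet, toZFSet_mem_toZFSet_iff.2 hα, u, hv, ?_⟩
      rw [← hQa]
      refine h.imp (fun h => ⟨h.1, fun z => ?_⟩) (fun h => h)
      rw [h.2, mem_uz_iff hen]
      constructor
      · rintro ⟨b, hz, h1, h2⟩
        exact ⟨b.toZFSet, ⟨ZFSet.isOrdinal_toZFSet b, by rw [rank_toZFSet]; exact hz⟩, h1,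
          (hRa α b).1 h2⟩
      · rintro ⟨x, ⟨hx, hz⟩, h1, h2⟩
        obtain ⟨b, rfl⟩ := ord_of hx
        rw [rank_toZFSet] at hz
        exact ⟨b, hz, h1, (hRa α b).2 h2⟩

theorem hod_empty : HOD (∅ : ZFSet.{u}) := by
  have := HOD.ordinal (0 : Ordinal.{u})
  rwa [toZFSet_zero] at this

theorem not_hmeas_empty (α : Ordinal.{u}) : ¬ HMeas α (∅ : ZFSet.{u}) := by
  intro h
  have h1 := h.ultra ∅ hod_empty (fun z hz => absurd hz (ZFSet.notMem_empty z))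
  exact ZFSet.notMem_empty _ (h1.2 (ZFSet.notMem_empty _))

/-- membership of a set `os κ Y` in the filter -/
theorem os_mem_uz {en : Ordinal.{u} → ZFSet.{u}} {ν κ d : Ordinal.{u}} {Y : Set Ordinal.{u}}
    (hY : DS Y) : os κ Y ∈ uz en ν κ d ↔ ¬ Pos ν κ (E en d \ Y) := by
  unfold uz
  rw [ZFSet.mem_sep, ZFSet.mem_powerset]
  have h : Pos ν κ (E en d \ {a | a.toZFSet ∈ os κ Y}) ↔ Pos ν κ (E en d \ Y) := by
    refine Pos.congr fun b hb => ?_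
    simp only [Set.mem_sdiff, Set.mem_ofPred_eq, ord_mem_os, hb, true_and]
  rw [h]
  constructor
  · rintro ⟨-, -, h⟩
    exact h
  · intro h
    refine ⟨fun z hz => ?_, od_os hY κ, h⟩
    obtain ⟨a, ha, -, rfl⟩ := mem_os.1 hz
    exact toZFSet_mem_toZFSet_iff.2 ha

theorem hk (hHE : T_HE.{u}) (hHI : T_HI.{u}) (hHJ : T_HJ.{u}) (hHH : T_HH.{u}) (hEA : T_EA.{u})
    (hDA : T_DA.{u}) (hVA : T_VA.{u}) (hLA : T_LA.{u}) : T_HK.{u} := by
  intro en M N K c d hT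
  obtain ⟨hE, hE2, -, -⟩ := hEA en hT.hen
  have hcof : ℵ₀ < K.ord.cof := by
    rw [hT.kreg.cof_ord]
    exact lt_of_le_of_lt hT.mreg.aleph0_le (hT.mn.trans hT.nk)
  set κ := K.ord with hκ
  set μ := M.ord with hμ
  set ν := N.ord with hν
  have hG : DS (G0 en μ ν c) := ds_G0 hLA hDA hE hE2 μ ν c
  have hCM : ∀ α ∈ G0 en μ ν c, CMe en μ α c := fun α h => cme_of_G0 hT.mreg hT.mn h
  -- the points of `E en d` outside `G0` form a null set
  have hnull : ¬ Pos ν κ (E en d \ G0 en μ ν c) := by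
    have h1 := null_union hVA hcof hT.pos (null_union hVA hcof (hHI en M N K c d hT)
      (hHJ en M N K c d hT))
    refine fun h => h1 (h.mono ?_)
    rintro b - ⟨hb, hb'⟩ hcf
    by_cases hp : Pos μ b (E en c)
    · right
      by_cases hu : ∃ x, Pos M.ord b (E en c ∩ E en x) ∧ Pos M.ord b (E en c \ E en x)
      · left
        exact ⟨hb, hu⟩
      · right
        refine ⟨hb, ?_⟩
        by_contra hn
        refine hb' ⟨hcf, hp, ?_, ?_⟩
        · intro x hx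
          exact hu ⟨x, hx⟩
        · intro e he hpos
          exact hn ⟨e, he, hpos⟩
    · left
      exact ⟨hb, hp⟩
  refine ⟨F en μ ν κ c, ZFSet.powerset (ZFSet.powerset κ.toZFSet), ?_, ?_, ?_, ?_⟩
  · refine hod_iff.2 ⟨od_F hLA hDA hT.hen hE hE2 μ ν κ c, fun p hp => ?_⟩
    obtain ⟨α, hα, u, rfl, h⟩ := mem_F.1 hp
    refine (HOD.ordinal α).pair ?_
    rcases h with ⟨h, rfl⟩ | ⟨-, rfl⟩
    · exact (hHE en hT.hen μ α c (hCM α h)).hod
    · exact hod_empty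
  · constructor
    · intro p hp
      exact (ZFSet.mem_sep.1 hp).1
    · intro z hz
      obtain ⟨α, hα, rfl⟩ := mem_toZFSet_iff.1 hz
      by_cases h : α ∈ G0 en μ ν c
      · refine ⟨uz en μ α c, pair_mem_F.2 ⟨hα, Or.inl ⟨h, rfl⟩⟩, fun u hu => ?_⟩
        rcases (pair_mem_F.1 hu).2 with ⟨-, h'⟩ | ⟨h', -⟩
        · exact h'
        · exact absurd h h'
      · refine ⟨∅, pair_mem_F.2 ⟨hα, Or.inr ⟨h, rfl⟩⟩, fun u hu => ?_⟩
        rcases (pair_mem_F.1 hu).2 with ⟨h', -⟩ | ⟨-, h'⟩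
        · exact absurd h' h
        · exact h'
  · have he : (κ.toZFSet).sep (fun b => ∃ u, ZFSet.pair b u ∈ F en μ ν κ c ∧ HMeas b.rank u) =
        os κ (G0 en μ ν c) := by
      ext z
      rw [ZFSet.mem_sep, mem_os]
      constructor
      · rintro ⟨hz, u, hu, hm⟩
        obtain ⟨α, hα, rfl⟩ := mem_toZFSet_iff.1 hz
        refine ⟨α, hα, ?_, rfl⟩
        rcases (pair_mem_F.1 hu).2 with ⟨h, -⟩ | ⟨-, rfl⟩
        · exact h
        · exact absurd hm (not_hmeas_empty _)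
      · rintro ⟨α, hα, h, rfl⟩
        refine ⟨toZFSet_mem_toZFSet_iff.2 hα, uz en μ α c, pair_mem_F.2 ⟨hα, Or.inl ⟨h, rfl⟩⟩, ?_⟩
        rw [rank_toZFSet]
        exact hHE en hT.hen μ α c (hCM α h)
    rw [he, os_mem_uz hG]
    exact hnull
  · intro x hx hxκ
    have hX : DS {a | a.toZFSet ∈ x} := hx.od.ds
    set X : Set Ordinal.{u} := {a | a.toZFSet ∈ x} with hXdef
    have hxU : x ∈ uz en μ κ c ↔ ¬ Pos μ κ (E en c \ X) := by
      unfold uz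
      rw [ZFSet.mem_sep, ZFSet.mem_powerset]
      exact ⟨fun h => h.2.2, fun h => ⟨hxκ, hx.od, h⟩⟩
    have hY : DS {α | α ∈ G0 en μ ν c ∧ ¬ Pos μ α (E en c \ X)} := by
      refine (DO.and hG (DO.not ?_)).congr fun w => Iff.rfl
      refine (do_posc hDA μ 0 (X := fun a _ => a ∈ E en c ∧ ¬ a ∈ X)
        ((do_Ec hE c 0).and (DO.not hX))).congr fun w => ?_
      exact Pos.congr fun b _ => Iff.rfl
    have he : (κ.toZFSet).sep (fun b => ∃ u, ZFSet.pair b u ∈ F en μ ν κ c ∧ x ∩ b ∈ u) =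
        os κ {α | α ∈ G0 en μ ν c ∧ ¬ Pos μ α (E en c \ X)} := by
      ext z
      rw [ZFSet.mem_sep, mem_os]
      have key : ∀ α : Ordinal.{u}, (x ∩ α.toZFSet ∈ uz en μ α c ↔ ¬ Pos μ α (E en c \ X)) := by
        intro α
        unfold uz
        rw [ZFSet.mem_sep, ZFSet.mem_powerset]
        have h : Pos μ α (E en c \ {a | a.toZFSet ∈ x ∩ α.toZFSet}) ↔ Pos μ α (E en c \ X) := by
          refine Pos.congr fun b hb => ?_
          simp only [Set.mem_sdiff, Set.mem_ofPred_eq, ZFSet.mem_inter, toZFSet_mem_toZFSet_iff, hb,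
            and_true, hXdef]
        rw [h]
        constructor
        · rintro ⟨-, -, h⟩
          exact h
        · intro h
          refine ⟨fun z hz => (ZFSet.mem_inter.1 hz).2, ?_, h⟩
          refine OD.of_ds (β := α) (fun z hz => (ZFSet.mem_inter.1 hz).2) ?_
          refine (DO.and hX (DO.ltc 0 α)).congr fun w => ?_
          simp only [Set.mem_ofPred_eq, ZFSet.mem_inter, toZFSet_mem_toZFSet_iff, hXdef]
      constructor
      · rintro ⟨hz, u, hu, hm⟩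
        obtain ⟨α, hα, rfl⟩ := mem_toZFSet_iff.1 hz
        refine ⟨α, hα, ?_, rfl⟩
        rcases (pair_mem_F.1 hu).2 with ⟨h, rfl⟩ | ⟨-, rfl⟩
        · exact ⟨h, (key α).1 hm⟩
        · exact absurd hm (ZFSet.notMem_empty _)
      · rintro ⟨α, hα, ⟨h, h'⟩, rfl⟩
        exact ⟨toZFSet_mem_toZFSet_iff.2 hα, uz en μ α c, pair_mem_F.2 ⟨hα, Or.inl ⟨h, rfl⟩⟩,
          (key α).2 h'⟩
    rw [hxU, he, os_mem_uz hY]
    obtain ⟨hh1, hh2⟩ := hHH en M N K c d hT X hX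
    constructor
    · intro h
      refine fun hp => null_union hVA hcof hnull (hh1 h) (hp.mono ?_)
      rintro b - ⟨hb, hb'⟩ -
      by_cases hg : b ∈ G0 en μ ν c
      · right
        refine ⟨hb, ?_⟩
        by_contra hn
        exact hb' ⟨hg, hn⟩
      · left
        exact ⟨hb, hg⟩
    · intro h hp
      refine null_union hVA hcof h (hh2 hp) (hT.ad.pos.mono ?_)
      rintro b - hb -
      by_cases hg : b ∈ {α | α ∈ G0 en μ ν c ∧ ¬ Pos μ α (E en c \ X)}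
      · right
        exact ⟨hb, hg.2⟩
      · left
        exact ⟨hb, hg⟩

end Pool.Agent.H48.HD.HK
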