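import Pool.Agent.H7.HD.Targets8
import Pool.Agent.H2.HD.UV

/-! Module SR of the board `hd4_modules`: reflection of positive sets. -/

open Ordinal Cardinal Order Set

universe u

namespace Pool.Agent.H48.HD.SR

open _root_.HD

theorem sr : T_SR.{u} := by
  intro D M κ W hD hD0 hκ hW hM hMD S hS
  classical
  by_contra hcon
  have hcon' : {ν | ¬ Pos M.ord ν S} ∈ W := Ultrafilter.compl_mem_iff_notMem.2 hcon
  have hch : ∀ ν, ¬ Pos M.ord ν S → ∃ C : Set Ordinal.{u}, Clb ν C ∧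
      ∀ b < ν, b ∈ C → b ∈ S → ¬ Cf M.ord b := by
    intro ν h
    unfold Pos at h
    push Not at h
    exact h
  choose! C hC using hch
  have hκω : ℵ₀ < κ.cof := hD0.trans_le hκ
  have hκlim : IsSuccLimit κ := (Ordinal.one_lt_cof_iff).1 (Cardinal.one_lt_aleph0.trans hκω)
  -- (a)
  have ha : ∀ a < κ, ∃ b < κ, a < b ∧ {ν | ∃ c ∈ C ν, a < c ∧ c < b} ∈ W := by
    intro a ha
    let g : Ordinal.{u} → Ordinal.{u} := fun ν =>
      if h : ∃ c, c ∈ C ν ∧ a < c ∧ c < ν then h.choose else 0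
    have hg : ∀ ν, ¬ Pos M.ord ν S → a < ν → g ν ∈ C ν ∧ a < g ν ∧ g ν < ν := by
      intro ν h1 h2
      have h3 : ∃ c, c ∈ C ν ∧ a < c ∧ c < ν := by
        obtain ⟨c, h4, h5, h6⟩ := (hC ν h1).1.unb a h2
        exact ⟨c, h6, h5, h4⟩
      have h4 : g ν = h3.choose := dif_pos h3
      rw [h4]
      exact h3.choose_spec
    have h1 : {ν | g ν < ν} ∈ W := by
      filter_upwards [hcon', hW.gt a ha] with ν h2 h3
      exact (hg ν h2 h3).2.2
    obtain ⟨ξ, hξ, h2⟩ := hW.wn g h1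
    refine ⟨max (succ ξ) (succ a), max_lt (hκlim.succ_lt hξ) (hκlim.succ_lt ha),
      lt_max_of_lt_right (Order.lt_succ a), ?_⟩
    filter_upwards [hcon', hW.gt a ha, h2] with ν h3 h4 h5
    obtain ⟨h6, h7, -⟩ := hg ν h3 h4
    exact ⟨g ν, h6, h7, lt_max_of_lt_left (Order.lt_succ_iff.2 h5)⟩
  -- (b)
  have hb : ∀ x < κ, 0 < x → x.cof < D →
      (∀ y < x, ∃ z, {ν | z ∈ C ν} ∈ W ∧ y < z ∧ z < x) → {ν | x ∈ C ν} ∈ W := by
    intro x hx hx0 hxD hcof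
    have hlim : IsSuccLimit x := by
      refine ⟨?_, ?_⟩
      · rw [isMin_iff_eq_bot]
        exact hx0.ne'
      · intro y hy
        obtain ⟨z, -, h1, h2⟩ := hcof y hy.lt
        exact hy.2 h1 h2
    obtain ⟨g, hg1, -, hg3⟩ := Pool.Agent.H2.HD.UV.exists_seq hlim
    choose! z hz1 hz2 hz3 using hcof
    have h1 := hW.cmp x.cof.ord (Cardinal.ord_lt_ord.2 hxD) (fun i => {ν | z (g i) ∈ C ν})
      (fun i hi => hz1 _ (hg1 i hi))
    filter_upwards [hcon', hW.gt x hx, h1] with ν h2 h3 h4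
    refine (hC ν h2).1.cls x h3 hx0 ?_
    intro y hy
    obtain ⟨i, hi, h5⟩ := hg3 y hy
    exact ⟨z (g i), hz3 _ (hg1 i hi), h5.trans (hz2 _ (hg1 i hi)), h4 i hi⟩
  -- (c)
  have hc : ∀ a < κ, ∃ x < κ, a < x ∧ {ν | x ∈ C ν} ∈ W := by
    intro a haκ
    obtain ⟨x, hx, s, hs0, hs1, hs2, hs3⟩ := Pool.Agent.H3.HD.exists_iter hκω
      (fun b b' => {ν | ∃ c ∈ C ν, b < c ∧ c < b'} ∈ W) ha a haκ
    have hax : a < x := by
      rw [← hs0]
      exact hs1 0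
    refine ⟨x, hx, hax, ?_⟩
    have hω : ω < D.ord := by
      rw [← Cardinal.ord_aleph0]
      exact Cardinal.ord_lt_ord.2 hD0
    have h1 := hW.cmp ω hω
      (fun i => {ν | ∀ n : ℕ, (n : Ordinal.{u}) = i → ∃ c ∈ C ν, s n < c ∧ c < s (n + 1)}) (by
        intro i hi
        obtain ⟨m, rfl⟩ := Ordinal.lt_omega0.1 hi
        filter_upwards [hs2 m] with ν h2 n hn
        have h3 : n = m := by exact_mod_cast hn
        rw [h3]
        exact h2)
    filter_upwards [hcon', hW.gt x hx, h1] with ν h2 h3 h4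
    refine (hC ν h2).1.cls x h3 (lt_of_le_of_lt zero_le hax) ?_
    intro y hy
    obtain ⟨n, hn⟩ := hs3 y hy
    obtain ⟨c, h5, h6, h7⟩ := h4 n (Ordinal.natCast_lt_omega0 n) n rfl
    exact ⟨c, h7.trans (hs1 _), hn.trans h6, h5⟩
  -- (d)
  have hd : Clb κ {x | ∀ y < x, ∃ z, {ν | z ∈ C ν} ∈ W ∧ y < z ∧ z < x} := by
    refine ⟨?_, ?_⟩
    · intro a haκ
      obtain ⟨x, hx, s, hs0, hs1, hs2, hs3⟩ := Pool.Agent.H3.HD.exists_iter hκω
        (fun b b' => {ν | b' ∈ C ν} ∈ W ∧ b < b') (by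
          intro b hb'
          obtain ⟨x, h1, h2, h3⟩ := hc b hb'
          exact ⟨x, h1, h2, h3, h2⟩) a haκ
      refine ⟨x, hx, ?_, ?_⟩
      · rw [← hs0]
        exact hs1 0
      · intro y hy
        obtain ⟨n, hn⟩ := hs3 y hy
        exact ⟨s (n + 1), (hs2 n).1, hn.trans (hs2 n).2, hs1 _⟩
    · intro x hx hx0 h1 y hy
      obtain ⟨z, h2, h3, h4⟩ := h1 y hy
      obtain ⟨z', h5, h6, h7⟩ := h4 y h3
      exact ⟨z', h5, h6, h7.trans h2⟩
  obtain ⟨b, hbκ, hbC, hbS, hbM⟩ := hS _ hd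
  have hbcof : b.cof = M := by
    have h1 : b.cof.ord = M.ord := hbM
    exact Cardinal.ord_injective h1
  have hb0 : 0 < b := by
    rw [pos_iff_ne_zero]
    rintro rfl
    rw [Ordinal.cof_zero] at hbcof
    have := hM.aleph0_le
    rw [← hbcof] at this
    exact absurd this (not_le.2 Cardinal.aleph0_pos)
  have h1 := hb b hbκ hb0 (by rw [hbcof]; exact hMD) hbC
  have h2 : {ν | b ∈ C ν} ∩ ({ν | b < ν} ∩ {ν | ¬ Pos M.ord ν S}) ∈ W :=
    Filter.inter_mem h1 (Filter.inter_mem (hW.gt b hbκ) hcon')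
  obtain ⟨ν, h3, h4, h5⟩ := Filter.nonempty_of_mem h2
  exact (hC ν h5).2 b h4 h3 hbS hbM

end Pool.Agent.H48.HD.SR
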